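import Pool.Agent.H66.RZ.Defs

/-!
Monotone real circuits: every gate computes an arbitrary function of two real variables which is
nondecreasing in both.  (Monotone Boolean circuits are the special case `min`, `max`.)
-/

namespace Pool.H90.RC

open Pool.H66.RZ

/-- A wire of a monotone real circuit: a real constant, an input variable, or the value of an
earlier gate (gates are numbered from `0`). -/
inductive RWire (ι : Type) : Type where
  | const (c : ℝ)
  | input (i : ι)
  | gate (j : ℕ)

/-- A gate: an arbitrary function of two real variables, nondecreasing in both variables, and two
wires. -/
structure RGate (ι : Type) : Type where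
  fn : ℝ → ℝ → ℝ
  mono : ∀ a a' b b' : ℝ, a ≤ a' → b ≤ b' → fn a b ≤ fn a' b'
  left : RWire ι
  right : RWire ι

/-- A monotone real circuit over the Boolean input variables `ι`: a list of gates, each of which may
use the input variables, constants and the earlier gates, and an output wire. -/
structure RCircuit (ι : Type) : Type where
  gates : List (RGate ι)
  out : RWire ι

/-- The value of a wire, given the values of the input variables (`true` is `1`, `false` is `0`) and
of the earlier gates (a reference to a gate which does not exist yet has the value `0`). -/
def RWire.val {ι : Type} (x : ι → Bool) (vals : List ℝ) : RWire ι → ℝ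
  | .const c => c
  | .input i => if x i = true then 1 else 0
  | .gate j => vals.getD j 0

/-- The value of a gate. -/
def RGate.val {ι : Type} (x : ι → Bool) (vals : List ℝ) (g : RGate ι) : ℝ :=
  g.fn (g.left.val x vals) (g.right.val x vals)

/-- Running a list of gates: `vals` are the values of the gates already evaluated. -/
def rrun {ι : Type} (x : ι → Bool) : List (RGate ι) → List ℝ → List ℝ
  | [], vals => vals
  | g :: gs, vals => rrun x gs (vals ++ [g.val x vals])

/-- The output of a monotone real circuit on the input `x`. -/
def RCircuit.eval {ι : Type} (C : RCircuit ι) (x : ι → Bool) : ℝ :=
  C.out.val x (rrun x C.gates [])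

/-- The size of a circuit: its number of gates. -/
def RCircuit.size {ι : Type} (C : RCircuit ι) : ℕ := C.gates.length

/-- The monotone real circuit separates the satisfiable instances (value `1`) from the instances of
value less than `ε`: its output is larger on every instance of the second kind than on every
instance of the first kind. -/
def RSeparates {N d R : ℕ} (C : RCircuit (Var N d R)) (ε : ℝ) : Prop :=
  ∀ Φ Ψ : LabelCover (Fin N) (Fin N) d R, Φ.E.Nonempty → Φ.value = 1 → Ψ.E.Nonempty →
    Ψ.value < ε → C.eval Φ.enc < C.eval Ψ.enc

end Pool.H90.RC
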