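import Mathlib

/-!
A dense set of placements is spread on a subcube.

`Q` is a finite set of functions `B → Fin m` with at least `m^b / κ^l` elements, `b = |B|`.  Take
`S` of maximal cardinality such that `Q` has density at least `κ^(|S| - l)` in some subcube
`[z on S]`.  Then `|S| ≤ l` and the part `U` of `Q` in this subcube is spread.
-/

namespace Pool.H90.RC

open Finset
open scoped Classical

variable {B : Type} [Fintype B] [DecidableEq B] {m : ℕ}

/-- The number of functions with given values on `S`. -/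
lemma card_agree (S : Finset B) (z : B → Fin m) :
    (univ.filter (fun x : B → Fin m => ∀ i ∈ S, x i = z i)).card =
      m ^ (Fintype.card B - S.card) := by
  have h1 : univ.filter (fun x : B → Fin m => ∀ i ∈ S, x i = z i) =
      Fintype.piFinset (fun i => if i ∈ S then {z i} else univ) := by
    ext x
    rw [mem_filter, Fintype.mem_piFinset]
    constructor
    · rintro ⟨-, h⟩ i
      by_cases hi : i ∈ S
      · rw [if_pos hi, mem_singleton]; exact h i hi
      · rw [if_neg hi]; exact mem_univ _
    · intro h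
      refine ⟨mem_univ _, fun i hi => ?_⟩
      have := h i
      rw [if_pos hi, mem_singleton] at this
      exact this
  rw [h1, Fintype.card_piFinset]
  have h2 : ∀ i : B, (if i ∈ S then ({z i} : Finset (Fin m)) else univ).card =
      if i ∈ S then 1 else m := by
    intro i
    split_ifs
    · exact card_singleton _
    · rw [card_univ, Fintype.card_fin]
  rw [prod_congr rfl (fun i _ => h2 i), prod_ite, prod_const_one, one_mul, prod_const]
  congr 1
  have h3 : univ.filter (fun i => i ∉ S) = Sᶜ := by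
    ext i
    simp
  rw [h3, card_compl]

/-- `Q` is dense in some subcube with support `S`. -/
def Dense (κ l : ℕ) (Q : Finset (B → Fin m)) (S : Finset B) : Prop :=
  ∃ z : B → Fin m, κ ^ S.card * m ^ Fintype.card B ≤
    (Q.filter (fun x => ∀ i ∈ S, x i = z i)).card * (κ ^ l * m ^ S.card)

theorem exists_spread {κ κ' l : ℕ} (hκ : 2 ≤ κ) (hm : 0 < m) (hκm : κ * κ' ≤ m)
    (Q : Finset (B → Fin m)) (hQ : m ^ Fintype.card B ≤ Q.card * κ ^ l) :
    ∃ (S : Finset B) (z : B → Fin m), S.card ≤ l ∧
      (Q.filter (fun x => ∀ i ∈ S, x i = z i)).Nonempty ∧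
      ∀ T : Finset B, Disjoint T S → ∀ a ∈ Q.filter (fun x => ∀ i ∈ S, x i = z i),
        ((Q.filter (fun x => ∀ i ∈ S, x i = z i)).filter (fun b => ∀ i ∈ T, b i = a i)).card *
          κ' ^ T.card ≤ (Q.filter (fun x => ∀ i ∈ S, x i = z i)).card := by
  have hκ0 : 0 < κ := by omega
  haveI : Nonempty (Fin m) := ⟨⟨0, hm⟩⟩
  have h0 : Dense κ l Q ∅ := by
    refine ⟨fun _ => ⟨0, hm⟩, ?_⟩
    simpa using hQ
  obtain ⟨S, hS, hmax⟩ := Finset.exists_max_image
    (univ.filter (fun S : Finset B => Dense κ l Q S)) Finset.card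
    ⟨∅, mem_filter.2 ⟨mem_univ _, h0⟩⟩
  obtain ⟨z, hz⟩ := (mem_filter.1 hS).2
  set U := Q.filter (fun x => ∀ i ∈ S, x i = z i) with hU
  have hmb : 0 < m ^ Fintype.card B := Nat.pow_pos hm
  have hUne : U.Nonempty := by
    rw [← card_pos]
    by_contra hcon
    have h1 : U.card = 0 := by omega
    rw [h1, zero_mul] at hz
    have : 0 < κ ^ S.card * m ^ Fintype.card B := Nat.mul_pos (Nat.pow_pos hκ0) hmb
    omega
  refine ⟨S, z, ?_, hUne, ?_⟩
  · -- the size of `S`
    have h1 : U.card ≤ m ^ (Fintype.card B - S.card) := by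
      rw [← card_agree S z]
      refine card_le_card fun x hx => ?_
      exact mem_filter.2 ⟨mem_univ _, (mem_filter.1 hx).2⟩
    have h2 : m ^ (Fintype.card B - S.card) * m ^ S.card = m ^ Fintype.card B := by
      rw [← pow_add, Nat.sub_add_cancel (card_le_univ S)]
    have h3 : κ ^ S.card * m ^ Fintype.card B ≤ κ ^ l * m ^ Fintype.card B := by
      calc κ ^ S.card * m ^ Fintype.card B ≤ U.card * (κ ^ l * m ^ S.card) := hz
        _ ≤ m ^ (Fintype.card B - S.card) * (κ ^ l * m ^ S.card) := Nat.mul_le_mul_right _ h1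
        _ = κ ^ l * (m ^ (Fintype.card B - S.card) * m ^ S.card) := by ring
        _ = κ ^ l * m ^ Fintype.card B := by rw [h2]
    have h4 : κ ^ S.card ≤ κ ^ l := Nat.le_of_mul_le_mul_right h3 hmb
    exact (Nat.pow_le_pow_iff_right (by omega)).1 h4
  · intro T hTS a ha
    by_cases hT : T = ∅
    · subst hT
      rw [card_empty, pow_zero, mul_one]
      exact card_le_card (filter_subset _ _)
    have hTpos : 0 < T.card := card_pos.2 (nonempty_iff_ne_empty.2 hT)
    have hcard : (S ∪ T).card = S.card + T.card := card_union_of_disjoint hTS.symm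
    have hnot : ¬ Dense κ l Q (S ∪ T) := by
      intro h
      have := hmax (S ∪ T) (mem_filter.2 ⟨mem_univ _, h⟩)
      omega
    have hlt : (Q.filter (fun x => ∀ i ∈ S ∪ T, x i = a i)).card * (κ ^ l * m ^ (S ∪ T).card) <
        κ ^ (S ∪ T).card * m ^ Fintype.card B := by
      by_contra hcon
      exact hnot ⟨a, not_lt.1 hcon⟩
    have heq : (U.filter (fun b => ∀ i ∈ T, b i = a i)) =
        Q.filter (fun x => ∀ i ∈ S ∪ T, x i = a i) := by
      ext b
      simp only [hU, mem_filter, mem_union]
      have haS := (mem_filter.1 ha).2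
      constructor
      · rintro ⟨⟨h1, h2⟩, h3⟩
        refine ⟨h1, fun i hi => ?_⟩
        rcases hi with hi | hi
        · rw [h2 i hi, haS i hi]
        · exact h3 i hi
      · rintro ⟨h1, h2⟩
        exact ⟨⟨h1, fun i hi => by rw [h2 i (Or.inl hi), haS i hi]⟩,
          fun i hi => h2 i (Or.inr hi)⟩
    rw [heq]
    set n := (Q.filter (fun x => ∀ i ∈ S ∪ T, x i = a i)).card with hn
    have h5 : n * m ^ T.card * (κ ^ l * m ^ S.card) < κ ^ T.card * U.card * (κ ^ l * m ^ S.card) := by
      calc n * m ^ T.card * (κ ^ l * m ^ S.card) = n * (κ ^ l * m ^ (S ∪ T).card) := by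
            rw [hcard, pow_add]; ring
        _ < κ ^ (S ∪ T).card * m ^ Fintype.card B := hlt
        _ = κ ^ T.card * (κ ^ S.card * m ^ Fintype.card B) := by rw [hcard, pow_add]; ring
        _ ≤ κ ^ T.card * (U.card * (κ ^ l * m ^ S.card)) := Nat.mul_le_mul_left _ hz
        _ = κ ^ T.card * U.card * (κ ^ l * m ^ S.card) := by ring
    have h6 : n * m ^ T.card < κ ^ T.card * U.card := lt_of_mul_lt_mul_right h5 (Nat.zero_le _)
    have h7 : κ ^ T.card * (n * κ' ^ T.card) ≤ κ ^ T.card * U.card := by
      calc κ ^ T.card * (n * κ' ^ T.card) = n * (κ * κ') ^ T.card := by rw [mul_pow]; ring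
        _ ≤ n * m ^ T.card := Nat.mul_le_mul_left _ (Nat.pow_le_pow_left hκm _)
        _ ≤ κ ^ T.card * U.card := h6.le
    exact Nat.le_of_mul_le_mul_left h7 (Nat.pow_pos hκ0)

end Pool.H90.RC
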