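import Pool.Agent.H66.RZ.Miss
import Pool.Agent.H90.RC.GateP

/-!
One gate of a monotone real circuit.
-/

namespace Pool.H90.RC

open Finset
open Pool.H66.RZ
open scoped Classical

variable {B : Type} [Fintype B] [DecidableEq B] {q k m : ℕ}

/-- The wire with value `v x` on the placement `x` and value `w y` on the labelling `y` has a
certificate: a set `S x` of at most `l` blocks for every placement `x`, such that for `x ∉ EP`,
`y ∉ EN`, if the labels of `y` at the copies of `S x` chosen by `x` belong to the strategy then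
`v x ≤ w y`. -/
def Cert (H : Game B q k) (l : ℕ) (EP : Finset (B → Fin m)) (EN : Finset (B × Fin m → Fin q))
    (v : (B → Fin m) → ℝ) (w : (B × Fin m → Fin q) → ℝ) : Prop :=
  ∃ S : (B → Fin m) → Finset B, (∀ x, (S x).card ≤ l) ∧
    ∀ x, x ∉ EP → ∀ y, y ∉ EN → H.ok (S x) (fun i => y (i, x i)) → v x ≤ w y

lemma Cert.mono {H : Game B q k} {l : ℕ} {EP EP' : Finset (B → Fin m)}
    {EN EN' : Finset (B × Fin m → Fin q)} {v : (B → Fin m) → ℝ} {w : (B × Fin m → Fin q) → ℝ}
    (h : Cert H l EP EN v w) (hP : EP ⊆ EP') (hN : EN ⊆ EN') : Cert H l EP' EN' v w := by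
  obtain ⟨S, h1, h2⟩ := h
  exact ⟨S, h1, fun x hx y hy hok => h2 x (fun h => hx (hP h)) y (fun h => hy (hN h)) hok⟩

/-- Witness of goodness of the placement `x`. -/
def GoodAt (EP : Finset (B → Fin m)) (J : (B → Fin m) → Finset B) (g : (B → Fin m) → ℝ)
    (κ' l : ℕ) (x : B → Fin m) (S : Finset B) (U : Finset (B → Fin m)) (D : Finset B) : Prop :=
  S.card ≤ l ∧ D.card ≤ 2 * l ∧ U.Nonempty ∧
    (∀ a ∈ U, (∀ i ∈ S, a i = x i) ∧ a ∉ EP ∧ J a = D ∧ g x ≤ g a) ∧
    ∀ T ⊆ D \ S, ∀ a ∈ U, (U.filter (fun b => ∀ i ∈ T, b i = a i)).card * κ' ^ T.card ≤ U.card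

/-- Few placements are not good. -/
lemma bad_count {κ κ' l : ℕ} (hκ : 2 ≤ κ) (hm : 0 < m) (hκm : κ * κ' ≤ m)
    (EP : Finset (B → Fin m)) (J : (B → Fin m) → Finset B) (hJ : ∀ x, (J x).card ≤ 2 * l)
    (g : (B → Fin m) → ℝ) :
    (univ.filter (fun x => x ∉ EP ∧ ¬ ∃ S U D, GoodAt EP J g κ' l x S U D)).card * κ ^ l ≤
      2 ^ Fintype.card B * m ^ Fintype.card B := by
  set Q := univ.filter (fun x => x ∉ EP ∧ ¬ ∃ S U D, GoodAt EP J g κ' l x S U D) with hQ
  have hD : ∀ D : Finset B, (Q.filter (fun x => J x = D)).card * κ ^ l ≤ m ^ Fintype.card B := by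
    intro D
    by_contra hcon
    push Not at hcon
    obtain ⟨S, z, hSl, hU, hsp⟩ := exists_spread hκ hm hκm (Q.filter (fun x => J x = D)) hcon.le
    set U := (Q.filter (fun x => J x = D)).filter (fun x => ∀ i ∈ S, x i = z i) with hUdef
    obtain ⟨x, hx, hmin⟩ := Finset.exists_min_image U g hU
    have hx' := mem_filter.1 (mem_filter.1 hx).1
    have hxQ := (mem_filter.1 hx'.1).2
    apply hxQ.2
    refine ⟨S, U, D, hSl, by rw [← hx'.2]; exact hJ x, hU, ?_, ?_⟩
    · intro a ha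
      have ha' := mem_filter.1 (mem_filter.1 ha).1
      refine ⟨fun i hi => ?_, (mem_filter.1 ha'.1).2.1, ha'.2, hmin a ha⟩
      rw [(mem_filter.1 ha).2 i hi, (mem_filter.1 hx).2 i hi]
    · intro T hT a ha
      exact hsp T (disjoint_left.2 fun i hi => (mem_sdiff.1 (hT hi)).2) a ha
  rw [card_eq_sum_card_fiberwise (f := J) (t := (univ : Finset (Finset B)))
    (fun _ _ => mem_coe.2 (mem_univ _)), sum_mul]
  calc ∑ D : Finset B, (Q.filter (fun x => J x = D)).card * κ ^ l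
      ≤ ∑ _D : Finset B, m ^ Fintype.card B := sum_le_sum fun D _ => hD D
    _ = 2 ^ Fintype.card B * m ^ Fintype.card B := by
        rw [sum_const, card_univ, Fintype.card_finset, smul_eq_mul]

/-- Functions which are constant outside of `S`. -/
def restr (n : ℕ) (hn : 0 < n) (S : Finset B) : Finset (B → Fin n) :=
  Fintype.piFinset (fun i => if i ∈ S then univ else {⟨0, hn⟩})

lemma card_restr (n : ℕ) (hn : 0 < n) (S : Finset B) : (restr n hn S).card = n ^ S.card := by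
  unfold restr
  rw [Fintype.card_piFinset]
  have h2 : ∀ i : B, (if i ∈ S then (univ : Finset (Fin n)) else {⟨0, hn⟩}).card =
      if i ∈ S then n else 1 := by
    intro i
    split_ifs
    · rw [card_univ, Fintype.card_fin]
    · exact card_singleton _
  rw [prod_congr rfl (fun i _ => h2 i), prod_ite, prod_const_one, mul_one, prod_const]
  congr 1
  have h3 : univ.filter (fun i => i ∈ S) = S := by
    ext i
    simp
  rw [h3]

lemma mem_restr {n : ℕ} {hn : 0 < n} {S : Finset B} (f : B → Fin n) :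
    (fun i => if i ∈ S then f i else ⟨0, hn⟩) ∈ restr n hn S := by
  unfold restr
  rw [Fintype.mem_piFinset]
  intro i
  by_cases hi : i ∈ S
  · rw [if_pos hi]; exact mem_univ _
  · rw [if_neg hi, if_neg hi]; exact mem_singleton_self _

/-- Few labellings are bad for a good placement. -/
lemma neg_count {κ' l t : ℕ} (hq : 0 < q) (ht : 0 < t) (hlk : 3 * l ≤ k) (hκ'0 : 0 < κ')
    (hκ' : 4 * (2 * l) * q * t ≤ κ') (H : Game B q k)
    (EP : Finset (B → Fin m)) (EN : Finset (B × Fin m → Fin q))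
    (J : (B → Fin m) → Finset B) (g : (B → Fin m) → ℝ) (w : (B × Fin m → Fin q) → ℝ)
    (hN : ∀ a, a ∉ EP → ∀ y, y ∉ EN → H.ok (J a) (fun i => y (i, a i)) → g a ≤ w y)
    {x : B → Fin m} {S : Finset B} {U : Finset (B → Fin m)} {D : Finset B}
    (hG : GoodAt EP J g κ' l x S U D) :
    ((univ.filter (fun y => y ∉ EN ∧ H.ok S (fun i => y (i, x i)) ∧ w y < g x)).card : ℝ) ≤
      (q : ℝ) ^ l * ((1 / 2) ^ t * (q : ℝ) ^ Fintype.card (B × Fin m)) := by
  obtain ⟨hS, hD, hU, hU2, hsp⟩ := hG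
  have hext : ∀ z : B → Fin q, H.ok S z → ∃ u : B → Fin q, (∀ i ∈ S, u i = z i) ∧
      H.ok (S ∪ D) u := by
    intro z hz
    refine H.ext S (S ∪ D) z subset_union_left ?_ hz
    have := card_union_le S D
    omega
  let u : (B → Fin q) → (B → Fin q) := fun z => if h : H.ok S z then (hext z h).choose else z
  let M : (B → Fin q) → Finset (B × Fin m → Fin q) := fun z =>
    univ.filter (fun y : B × Fin m → Fin q => ∀ a ∈ U, ∃ i ∈ D \ S, y (i, a i) ≠ u z i)
  have hsub : univ.filter (fun y => y ∉ EN ∧ H.ok S (fun i => y (i, x i)) ∧ w y < g x) ⊆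
      (restr q hq S).biUnion M := by
    intro y hy
    obtain ⟨hyN, hok, hlt⟩ := (mem_filter.1 hy).2
    set z : B → Fin q := fun i => if i ∈ S then y (i, x i) else ⟨0, hq⟩ with hz
    have hzok : H.ok S z := by
      refine H.congr S _ z (fun i hi => ?_) hok
      simp only [hz, if_pos hi]
    refine mem_biUnion.2 ⟨z, mem_restr (fun i => y (i, x i)), mem_filter.2 ⟨mem_univ _, ?_⟩⟩
    intro a ha
    by_contra hcon
    push Not at hcon
    have hu : u z = (hext z hzok).choose := by simp only [u, dif_pos hzok]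
    have hu1 := (hext z hzok).choose_spec.1
    have hu2 := (hext z hzok).choose_spec.2
    rw [← hu] at hu1 hu2
    obtain ⟨haS, haP, haJ, hga⟩ := hU2 a ha
    have h1 : H.ok (S ∪ D) (fun i => y (i, a i)) := by
      refine H.congr (S ∪ D) (u z) _ (fun i hi => ?_) hu2
      by_cases hiS : i ∈ S
      · rw [hu1 i hiS, haS i hiS]
        simp only [hz, if_pos hiS]
      · have hiD : i ∈ D := (mem_union.1 hi).resolve_left hiS
        exact (hcon i (mem_sdiff.2 ⟨hiD, hiS⟩)).symm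
    have h2 : H.ok (J a) (fun i => y (i, a i)) := by
      rw [haJ]
      exact H.mono D (S ∪ D) _ subset_union_right h1
    have h3 := hN a haP y hyN h2
    linarith
  have hM : ∀ z, ((M z).card : ℝ) ≤ (1 / 2) ^ t * (q : ℝ) ^ Fintype.card (B × Fin m) := by
    intro z
    refine miss_card hq ht (D \ S) U hU κ' hκ'0 ?_ hsp (u z)
    refine le_trans ?_ hκ'
    have : (D \ S).card ≤ 2 * l := (card_le_card sdiff_subset).trans hD
    exact Nat.mul_le_mul_right _ (Nat.mul_le_mul_right _ (Nat.mul_le_mul_left _ this))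
  have hq1 : (1:ℝ) ≤ q := by exact_mod_cast hq
  have hpos : (0:ℝ) ≤ (1 / 2) ^ t * (q : ℝ) ^ Fintype.card (B × Fin m) := by positivity
  calc ((univ.filter (fun y => y ∉ EN ∧ H.ok S (fun i => y (i, x i)) ∧ w y < g x)).card : ℝ)
      ≤ (((restr q hq S).biUnion M).card : ℝ) := by exact_mod_cast card_le_card hsub
    _ ≤ ((∑ z ∈ restr q hq S, (M z).card : ℕ) : ℝ) := by exact_mod_cast card_biUnion_le
    _ = ∑ z ∈ restr q hq S, ((M z).card : ℝ) := by push_cast; rfl
    _ ≤ ∑ _z ∈ restr q hq S, ((1 / 2) ^ t * (q : ℝ) ^ Fintype.card (B × Fin m)) :=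
        sum_le_sum fun z _ => hM z
    _ = (q : ℝ) ^ S.card * ((1 / 2) ^ t * (q : ℝ) ^ Fintype.card (B × Fin m)) := by
        rw [sum_const, card_restr, nsmul_eq_mul]
        push_cast
        rfl
    _ ≤ (q : ℝ) ^ l * ((1 / 2) ^ t * (q : ℝ) ^ Fintype.card (B × Fin m)) :=
        mul_le_mul_of_nonneg_right (pow_le_pow_right₀ hq1 hS) hpos

/-- One gate. -/
theorem gate_step {κ κ' l t : ℕ} (hq : 0 < q) (hm : 0 < m) (ht : 0 < t) (hlk : 3 * l ≤ k)
    (hκ : 2 ≤ κ) (hκ'0 : 0 < κ') (hκm : κ * κ' ≤ m) (hκ' : 4 * (2 * l) * q * t ≤ κ')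
    (H : Game B q k) (EP : Finset (B → Fin m)) (EN : Finset (B × Fin m → Fin q))
    (φ : ℝ → ℝ → ℝ) (hφ : ∀ a a' b b' : ℝ, a ≤ a' → b ≤ b' → φ a b ≤ φ a' b')
    (va vb : (B → Fin m) → ℝ) (wa wb : (B × Fin m → Fin q) → ℝ)
    (ha : Cert H l EP EN va wa) (hb : Cert H l EP EN vb wb) :
    ∃ (EP' : Finset (B → Fin m)) (EN' : Finset (B × Fin m → Fin q)), EP ⊆ EP' ∧ EN ⊆ EN' ∧
      EP'.card * κ ^ l ≤ EP.card * κ ^ l + 2 ^ Fintype.card B * m ^ Fintype.card B ∧
      (EN'.card : ℝ) ≤ EN.card + 2 ^ Fintype.card B * (m : ℝ) ^ l *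
        ((q : ℝ) ^ l * ((1 / 2) ^ t * (q : ℝ) ^ Fintype.card (B × Fin m))) ∧
      Cert H l EP' EN' (fun x => φ (va x) (vb x)) (fun y => φ (wa y) (wb y)) := by
  obtain ⟨Sa, hSa, hSa2⟩ := ha
  obtain ⟨Sb, hSb, hSb2⟩ := hb
  set J : (B → Fin m) → Finset B := fun x => Sa x ∪ Sb x with hJdef
  have hJ : ∀ x, (J x).card ≤ 2 * l := by
    intro x
    have h1 := card_union_le (Sa x) (Sb x)
    have h2 := hSa x
    have h3 := hSb x
    simp only [hJdef]
    omega
  set g : (B → Fin m) → ℝ := fun x => φ (va x) (vb x) with hg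
  set w : (B × Fin m → Fin q) → ℝ := fun y => φ (wa y) (wb y) with hw
  have hN : ∀ a, a ∉ EP → ∀ y, y ∉ EN → H.ok (J a) (fun i => y (i, a i)) → g a ≤ w y := by
    intro a haP y hyN hok
    refine hφ _ _ _ _ ?_ ?_
    · exact hSa2 a haP y hyN (H.mono _ _ _ subset_union_left hok)
    · exact hSb2 a haP y hyN (H.mono _ _ _ subset_union_right hok)
  let P : (B → Fin m) → Prop := fun x => ∃ S U D, GoodAt EP J g κ' l x S U D
  let S' : (B → Fin m) → Finset B := fun x => if h : P x then h.choose else ∅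
  have hS'spec : ∀ x, P x → ∃ U D, GoodAt EP J g κ' l x (S' x) U D := by
    intro x hx
    have : S' x = hx.choose := by simp only [S', dif_pos hx]
    rw [this]
    exact hx.choose_spec
  have hS'card : ∀ x, (S' x).card ≤ l := by
    intro x
    by_cases hx : P x
    · obtain ⟨U, D, h⟩ := hS'spec x hx
      exact h.1
    · simp only [S', dif_neg hx, card_empty]
      exact Nat.zero_le _
  let Bad : Finset B × (B → Fin m) → Finset (B × Fin m → Fin q) := fun X =>
    univ.filter (fun y => y ∉ EN ∧ ∃ x, P x ∧ S' x = X.1 ∧ (∀ i ∈ X.1, x i = X.2 i) ∧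
      H.ok (S' x) (fun i => y (i, x i)) ∧ w y < g x)
  have hBad : ∀ X, ((Bad X).card : ℝ) ≤
      (q : ℝ) ^ l * ((1 / 2) ^ t * (q : ℝ) ^ Fintype.card (B × Fin m)) := by
    intro X
    by_cases hne : (univ.filter (fun x => P x ∧ S' x = X.1 ∧ ∀ i ∈ X.1, x i = X.2 i)).Nonempty
    · obtain ⟨x₀, hx₀, hmax⟩ := Finset.exists_max_image _ g hne
      obtain ⟨hx1, hx2, hx3⟩ := (mem_filter.1 hx₀).2
      obtain ⟨U, D, hG⟩ := hS'spec x₀ hx1
      refine le_trans ?_ (neg_count hq ht hlk hκ'0 hκ' H EP EN J g w hN hG)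
      norm_cast
      refine card_le_card fun y hy => ?_
      obtain ⟨hyN, x, h1, h2, h3, h4, h5⟩ := (mem_filter.1 hy).2
      have h6 : g x ≤ g x₀ := hmax x (mem_filter.2 ⟨mem_univ _, h1, h2, h3⟩)
      refine mem_filter.2 ⟨mem_univ _, hyN, ?_, lt_of_lt_of_le h5 h6⟩
      rw [hx2, ← h2]
      refine H.congr _ _ _ (fun i hi => ?_) h4
      have hi' : i ∈ X.1 := by rw [← h2]; exact hi
      show y (i, x i) = y (i, x₀ i)
      rw [h3 i hi', hx3 i hi']
    · have h0 : Bad X = ∅ := by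
        rw [eq_empty_iff_forall_notMem]
        intro y hy
        obtain ⟨_, x, h1, h2, h3, _, _⟩ := (mem_filter.1 hy).2
        exact hne ⟨x, mem_filter.2 ⟨mem_univ _, h1, h2, h3⟩⟩
      rw [h0, card_empty]
      push_cast
      positivity
  let 𝒳 : Finset (Finset B × (B → Fin m)) :=
    (univ.filter (fun S : Finset B => S.card ≤ l)).biUnion
      (fun S => (restr m hm S).image (fun z => (S, z)))
  have h𝒳 : (𝒳.card : ℝ) ≤ 2 ^ Fintype.card B * (m : ℝ) ^ l := by
    have h1 : 𝒳.card ≤ 2 ^ Fintype.card B * m ^ l := by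
      calc 𝒳.card ≤ ∑ S ∈ univ.filter (fun S : Finset B => S.card ≤ l),
            ((restr m hm S).image (fun z => (S, z))).card := card_biUnion_le
        _ ≤ ∑ _S ∈ univ.filter (fun S : Finset B => S.card ≤ l), m ^ l := by
            refine sum_le_sum fun S hS => ?_
            refine card_image_le.trans ?_
            rw [card_restr]
            exact Nat.pow_le_pow_right hm (mem_filter.1 hS).2
        _ = (univ.filter (fun S : Finset B => S.card ≤ l)).card * m ^ l := by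
            rw [sum_const, smul_eq_mul]
        _ ≤ 2 ^ Fintype.card B * m ^ l := by
            refine Nat.mul_le_mul_right _ ?_
            rw [← Fintype.card_finset]
            exact card_le_univ _
    exact_mod_cast h1
  refine ⟨EP ∪ univ.filter (fun x => x ∉ EP ∧ ¬ P x), EN ∪ 𝒳.biUnion Bad, subset_union_left,
    subset_union_left, ?_, ?_, S', hS'card, ?_⟩
  · calc (EP ∪ univ.filter (fun x => x ∉ EP ∧ ¬ P x)).card * κ ^ l
        ≤ (EP.card + (univ.filter (fun x => x ∉ EP ∧ ¬ P x)).card) * κ ^ l :=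
          Nat.mul_le_mul_right _ (card_union_le _ _)
      _ = EP.card * κ ^ l + (univ.filter (fun x => x ∉ EP ∧ ¬ P x)).card * κ ^ l := add_mul _ _ _
      _ ≤ EP.card * κ ^ l + 2 ^ Fintype.card B * m ^ Fintype.card B :=
          Nat.add_le_add_left (bad_count hκ hm hκm EP J hJ g) _
  · have h1 : ((EN ∪ 𝒳.biUnion Bad).card : ℝ) ≤ EN.card + ∑ X ∈ 𝒳, ((Bad X).card : ℝ) := by
      have h2 := card_union_le EN (𝒳.biUnion Bad)
      have h3 : (𝒳.biUnion Bad).card ≤ ∑ X ∈ 𝒳, (Bad X).card := card_biUnion_le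
      have h4 : (EN ∪ 𝒳.biUnion Bad).card ≤ EN.card + ∑ X ∈ 𝒳, (Bad X).card := by omega
      exact_mod_cast h4
    refine h1.trans ?_
    have h5 : ∑ X ∈ 𝒳, ((Bad X).card : ℝ) ≤
        (𝒳.card : ℝ) * ((q : ℝ) ^ l * ((1 / 2) ^ t * (q : ℝ) ^ Fintype.card (B × Fin m))) := by
      calc ∑ X ∈ 𝒳, ((Bad X).card : ℝ) ≤
          ∑ _X ∈ 𝒳, ((q : ℝ) ^ l * ((1 / 2) ^ t * (q : ℝ) ^ Fintype.card (B × Fin m))) :=
            sum_le_sum fun X _ => hBad X
        _ = _ := by rw [sum_const, nsmul_eq_mul]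
    have h6 : (𝒳.card : ℝ) * ((q : ℝ) ^ l * ((1 / 2) ^ t * (q : ℝ) ^ Fintype.card (B × Fin m))) ≤
        2 ^ Fintype.card B * (m : ℝ) ^ l *
          ((q : ℝ) ^ l * ((1 / 2) ^ t * (q : ℝ) ^ Fintype.card (B × Fin m))) :=
      mul_le_mul_of_nonneg_right h𝒳 (by positivity)
    linarith
  · intro x hx y hy hok
    by_contra hcon
    push Not at hcon
    have hxP : P x := by
      by_contra hnP
      exact hx (mem_union_right _ (mem_filter.2 ⟨mem_univ _,
        fun h => hx (mem_union_left _ h), hnP⟩))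
    apply hy
    refine mem_union_right _ (mem_biUnion.2 ⟨(S' x, fun i => if i ∈ S' x then x i else ⟨0, hm⟩),
      ?_, ?_⟩)
    · refine mem_biUnion.2 ⟨S' x, mem_filter.2 ⟨mem_univ _, hS'card x⟩, ?_⟩
      exact mem_image.2 ⟨_, mem_restr x, rfl⟩
    · refine mem_filter.2 ⟨mem_univ _, fun h => hy (mem_union_left _ h), x, hxP, rfl, ?_, hok,
        hcon⟩
      intro i hi
      show x i = if i ∈ S' x then x i else ⟨0, hm⟩
      rw [if_pos hi]

end Pool.H90.RC
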