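import Pool.Agent.H90.RC.GateN
import Pool.Agent.H90.RC.Defs

/-!
The lower bound for monotone real circuits and an abstract strategy.
-/

namespace Pool.H90.RC

open Finset
open Pool.H66.RZ
open scoped Classical

section

variable {B ι : Type} [Fintype B] [DecidableEq B] {q k m l : ℕ}

lemma cert_le (H : Game B q k) (EP : Finset (B → Fin m)) (EN : Finset (B × Fin m → Fin q))
    (v : (B → Fin m) → ℝ) (w : (B × Fin m → Fin q) → ℝ) (h : ∀ x y, v x ≤ w y) :
    Cert H l EP EN v w :=
  ⟨fun _ => ∅, fun _ => by simp, fun x _ y _ _ => h x y⟩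

lemma wire_cert (hl : 2 ≤ l) (H : Game B q k) (live : ι → Option ((B × Fin m) × (B × Fin m)))
    (ρ : ι → Fin q → Fin q → Prop) (px : (B → Fin m) → ι → Bool)
    (ny : (B × Fin m → Fin q) → ι → Bool)
    (hpx : ∀ x i, px x i = true → ∃ s u, live i = some (s, u) ∧ x s.1 = s.2 ∧ x u.1 = u.2)
    (hny : ∀ y i s u, live i = some (s, u) → ρ i (y s) (y u) → ny y i = true)
    (hH : ∀ i s u f, live i = some (s, u) → H.ok {s.1, u.1} f → ρ i (f s.1) (f u.1))
    (EP : Finset (B → Fin m)) (EN : Finset (B × Fin m → Fin q))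
    (LP : (B → Fin m) → List ℝ) (LN : (B × Fin m → Fin q) → List ℝ)
    (h : ∀ j, Cert H l EP EN (fun x => (LP x).getD j 0) (fun y => (LN y).getD j 0))
    (W : RWire ι) :
    Cert H l EP EN (fun x => W.val (px x) (LP x)) (fun y => W.val (ny y) (LN y)) := by
  rcases W with c | i | j
  · exact cert_le H EP EN _ _ fun _ _ => le_refl _
  · refine ⟨fun x => if h : ∃ s u, live i = some (s, u) ∧ x s.1 = s.2 ∧ x u.1 = u.2 then
      {h.choose.1, h.choose_spec.choose.1} else ∅, ?_, ?_⟩
    · intro x
      dsimp only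
      split_ifs with h
      · exact (card_insert_le _ _).trans (by rw [card_singleton]; omega)
      · simp
    · intro x _ y _ hok
      show (if px x i = true then (1:ℝ) else 0) ≤ if ny y i = true then 1 else 0
      by_cases hx : px x i = true
      · have hex := hpx x i hx
        dsimp only at hok
        rw [dif_pos hex] at hok
        obtain ⟨h1, h2, h3⟩ := hex.choose_spec.choose_spec
        set s := hex.choose with hs
        set u := hex.choose_spec.choose with hu
        have h4 := hH i s u _ h1 hok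
        have h5 : ρ i (y s) (y u) := by
          have e1 : (s.1, x s.1) = s := by rw [h2]
          have e2 : (u.1, x u.1) = u := by rw [h3]
          rw [e1, e2] at h4
          exact h4
        rw [if_pos hx, if_pos (hny y i s u h1 h5)]
      · rw [if_neg hx]
        split_ifs <;> norm_num
  · exact h j

lemma run_cert {t κ κ' : ℕ} (hq : 0 < q) (hm : 0 < m) (ht : 0 < t) (hl : 2 ≤ l)
    (hlk : 3 * l ≤ k) (hκ : 2 ≤ κ) (hκ'0 : 0 < κ') (hκm : κ * κ' ≤ m)
    (hκ' : 4 * (2 * l) * q * t ≤ κ') (H : Game B q k)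
    (live : ι → Option ((B × Fin m) × (B × Fin m)))
    (ρ : ι → Fin q → Fin q → Prop) (px : (B → Fin m) → ι → Bool)
    (ny : (B × Fin m → Fin q) → ι → Bool)
    (hpx : ∀ x i, px x i = true → ∃ s u, live i = some (s, u) ∧ x s.1 = s.2 ∧ x u.1 = u.2)
    (hny : ∀ y i s u, live i = some (s, u) → ρ i (y s) (y u) → ny y i = true)
    (hH : ∀ i s u f, live i = some (s, u) → H.ok {s.1, u.1} f → ρ i (f s.1) (f u.1))
    (gs : List (RGate ι)) :
    ∀ (n : ℕ) (EP : Finset (B → Fin m)) (EN : Finset (B × Fin m → Fin q))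
      (LP : (B → Fin m) → List ℝ) (LN : (B × Fin m → Fin q) → List ℝ),
      (∀ x, (LP x).length = n) → (∀ y, (LN y).length = n) →
      (∀ j, Cert H l EP EN (fun x => (LP x).getD j 0) (fun y => (LN y).getD j 0)) →
      ∃ (EP' : Finset (B → Fin m)) (EN' : Finset (B × Fin m → Fin q)), 
        EP'.card * κ ^ l ≤ EP.card * κ ^ l +
          gs.length * (2 ^ Fintype.card B * m ^ Fintype.card B) ∧
        (EN'.card : ℝ) ≤ EN.card + gs.length * (2 ^ Fintype.card B * (m : ℝ) ^ l *
          ((q : ℝ) ^ l * ((1 / 2) ^ t * (q : ℝ) ^ Fintype.card (B × Fin m)))) ∧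
        ∀ j, Cert H l EP' EN' (fun x => (rrun (px x) gs (LP x)).getD j 0)
          (fun y => (rrun (ny y) gs (LN y)).getD j 0) := by
  induction gs with
  | nil =>
    intro n EP EN LP LN _ _ h
    exact ⟨EP, EN, by simp, by simp, h⟩
  | cons g gs ih =>
    intro n EP EN LP LN hP hN h
    have hL := wire_cert hl H live ρ px ny hpx hny hH EP EN LP LN h g.left
    have hR := wire_cert hl H live ρ px ny hpx hny hH EP EN LP LN h g.right
    obtain ⟨EP₁, EN₁, h1, h2, h3, h4, h5⟩ := gate_step hq hm ht hlk hκ hκ'0 hκm hκ' H EP EN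
      g.fn g.mono _ _ _ _ hL hR
    obtain ⟨EP₂, EN₂, h6, h7, h8⟩ := ih (n + 1) EP₁ EN₁ (fun x => LP x ++ [g.val (px x) (LP x)])
      (fun y => LN y ++ [g.val (ny y) (LN y)]) (fun x => by simp [hP x]) (fun y => by simp [hN y])
      (by
        intro j
        rcases lt_trichotomy j n with hj | hj | hj
        · have e1 : ∀ x, (LP x ++ [g.val (px x) (LP x)]).getD j 0 = (LP x).getD j 0 := fun x =>
            List.getD_append _ _ _ _ (by rw [hP x]; exact hj)
          have e2 : ∀ y, (LN y ++ [g.val (ny y) (LN y)]).getD j 0 = (LN y).getD j 0 := fun y =>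
            List.getD_append _ _ _ _ (by rw [hN y]; exact hj)
          simp only [e1, e2]
          exact (h j).mono h1 h2
        · have e1 : ∀ x, (LP x ++ [g.val (px x) (LP x)]).getD j 0 = g.val (px x) (LP x) := by
            intro x
            rw [List.getD_append_right _ _ _ _ (by rw [hP x, hj]), hP x, hj]
            simp
          have e2 : ∀ y, (LN y ++ [g.val (ny y) (LN y)]).getD j 0 = g.val (ny y) (LN y) := by
            intro y
            rw [List.getD_append_right _ _ _ _ (by rw [hN y, hj]), hN y, hj]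
            simp
          simp only [e1, e2]
          exact h5
        · have e1 : ∀ x, (LP x ++ [g.val (px x) (LP x)]).getD j 0 = 0 := by
            intro x
            rw [List.getD_append_right _ _ _ _ (by rw [hP x]; exact hj.le), hP x]
            have : 1 ≤ j - n := by omega
            exact List.getD_eq_default _ _ (by simpa using this)
          have e2 : ∀ y, (LN y ++ [g.val (ny y) (LN y)]).getD j 0 = 0 := by
            intro y
            rw [List.getD_append_right _ _ _ _ (by rw [hN y]; exact hj.le), hN y]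
            have : 1 ≤ j - n := by omega
            exact List.getD_eq_default _ _ (by simpa using this)
          simp only [e1, e2]
          exact cert_le H _ _ _ _ fun _ _ => le_refl _)
    refine ⟨EP₂, EN₂, ?_, ?_, h8⟩
    · rw [List.length_cons]
      calc EP₂.card * κ ^ l ≤ EP₁.card * κ ^ l +
            gs.length * (2 ^ Fintype.card B * m ^ Fintype.card B) := h6
        _ ≤ (EP.card * κ ^ l + 2 ^ Fintype.card B * m ^ Fintype.card B) +
            gs.length * (2 ^ Fintype.card B * m ^ Fintype.card B) := Nat.add_le_add_right h3 _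
        _ = _ := by ring
    · rw [List.length_cons]
      push_cast
      linarith

end

/-- The lower bound for an abstract strategy. -/
theorem real_low {B ι : Type} [Fintype B] [DecidableEq B] {q k m l t κ κ' : ℕ} (hq : 0 < q)
    (hm : 0 < m) (ht : 0 < t) (hl : 2 ≤ l) (hlk : 3 * l ≤ k) (hκ : 2 ≤ κ) (hκ'0 : 0 < κ')
    (hκm : κ * κ' ≤ m) (hκ' : 4 * (2 * l) * q * t ≤ κ')
    (H : Game B q k) (live : ι → Option ((B × Fin m) × (B × Fin m)))
    (ρ : ι → Fin q → Fin q → Prop) (px : (B → Fin m) → ι → Bool)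
    (ny : (B × Fin m → Fin q) → ι → Bool)
    (hpx : ∀ x i, px x i = true → ∃ s u, live i = some (s, u) ∧ x s.1 = s.2 ∧ x u.1 = u.2)
    (hny : ∀ y i s u, live i = some (s, u) → ρ i (y s) (y u) → ny y i = true)
    (hH : ∀ i s u f, live i = some (s, u) → H.ok {s.1, u.1} f → ρ i (f s.1) (f u.1))
    (C : RCircuit ι) (hC : ∀ x y, C.eval (ny y) < C.eval (px x)) :
    κ ^ l ≤ C.size * 2 ^ Fintype.card B ∨
      (2 : ℝ) ^ t ≤ C.size * 2 ^ Fintype.card B * (m : ℝ) ^ l * (q : ℝ) ^ (2 * l) := by
  obtain ⟨EP, EN, h1, h2, h3⟩ := run_cert hq hm ht hl hlk hκ hκ'0 hκm hκ' H live ρ px ny hpx hny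
    hH C.gates 0 ∅ ∅ (fun _ => []) (fun _ => []) (fun _ => rfl) (fun _ => rfl)
    (fun j => cert_le H _ _ _ _ fun _ _ => by simp)
  have hout := wire_cert hl H live ρ px ny hpx hny hH EP EN
    (fun x => rrun (px x) C.gates []) (fun y => rrun (ny y) C.gates []) h3 C.out
  rw [card_empty, zero_mul, zero_add] at h1
  rw [card_empty, Nat.cast_zero, zero_add] at h2
  have hmb : 0 < m ^ Fintype.card B := Nat.pow_pos hm
  by_cases hA : κ ^ l ≤ C.size * 2 ^ Fintype.card B
  · exact Or.inl hA
  right
  push Not at hA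
  -- a placement which is not exceptional
  have hEP : ∃ x, x ∉ EP := by
    by_contra hcon
    push Not at hcon
    have h4 : EP = univ := eq_univ_of_forall hcon
    have h5 : EP.card = m ^ Fintype.card B := by
      rw [h4, card_univ, Fintype.card_fun, Fintype.card_fin]
    rw [h5] at h1
    have h6 : κ ^ l * m ^ Fintype.card B ≤ (C.size * 2 ^ Fintype.card B) * m ^ Fintype.card B := by
      have e : C.gates.length = C.size := rfl
      rw [e] at h1
      calc κ ^ l * m ^ Fintype.card B = m ^ Fintype.card B * κ ^ l := mul_comm _ _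
        _ ≤ C.size * (2 ^ Fintype.card B * m ^ Fintype.card B) := h1
        _ = _ := by ring
    have h7 := Nat.le_of_mul_le_mul_right h6 hmb
    omega
  obtain ⟨x, hx⟩ := hEP
  obtain ⟨S, hS, hS2⟩ := hout
  have hz : H.ok ∅ (fun _ => (⟨0, hq⟩ : Fin q)) := H.empty _
  obtain ⟨u, -, hu⟩ := H.ext ∅ (S x) _ (empty_subset _) (by have := hS x; omega) hz
  -- all labellings which read `u` are exceptional
  have hall : ∀ y : B × Fin m → Fin q, (∀ i ∈ S x, y (i, x i) = u i) → y ∈ EN := by
    intro y hy
    by_contra hyN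
    have h4 := hS2 x hx y hyN (H.congr (S x) u _ (fun i hi => (hy i hi).symm) hu)
    exact absurd h4 (not_le.2 (hC x y))
  have hcount : q ^ (Fintype.card (B × Fin m) - (S x).card) ≤ EN.card := by
    have h4 : (univ.filter (fun y : B × Fin m → Fin q => ∀ e ∈ (S x).image (fun i => (i, x i)),
        y e = u e.1)).card = q ^ (Fintype.card (B × Fin m) - (S x).card) := by
      have h5 := card_agree (B := B × Fin m) (m := q) ((S x).image (fun i => (i, x i)))
        (fun e => u e.1)
      rw [h5, card_image_of_injective]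
      intro i j hij
      exact congrArg Prod.fst hij
    rw [← h4]
    refine card_le_card fun y hy => hall y fun i hi => ?_
    exact (mem_filter.1 hy).2 (i, x i) (mem_image_of_mem _ hi)
  have hq1 : (1:ℝ) ≤ q := by exact_mod_cast hq
  have hcount' : (q : ℝ) ^ Fintype.card (B × Fin m) ≤ (q : ℝ) ^ l * EN.card := by
    have hSle : (S x).card ≤ Fintype.card (B × Fin m) := by
      have h5 : ((S x).image (fun i => (i, x i))).card = (S x).card :=
        card_image_of_injective _ fun i j hij => congrArg Prod.fst hij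
      rw [← h5]
      exact card_le_univ _
    have h6 : ((q ^ (Fintype.card (B × Fin m) - (S x).card) : ℕ) : ℝ) ≤ EN.card := by
      exact_mod_cast hcount
    push_cast at h6
    calc (q : ℝ) ^ Fintype.card (B × Fin m)
        = (q : ℝ) ^ (S x).card * (q : ℝ) ^ (Fintype.card (B × Fin m) - (S x).card) := by
          rw [← pow_add, Nat.add_sub_cancel' hSle]
      _ ≤ (q : ℝ) ^ l * EN.card :=
          mul_le_mul (pow_le_pow_right₀ hq1 (hS x)) h6 (by positivity) (by positivity)
  have hQ : (0:ℝ) < (q : ℝ) ^ Fintype.card (B × Fin m) := by positivity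
  set Qn := (q : ℝ) ^ Fintype.card (B × Fin m) with hQn
  have h9 : Qn ≤ (q : ℝ) ^ l * (C.size * (2 ^ Fintype.card B * (m : ℝ) ^ l *
      ((q : ℝ) ^ l * ((1 / 2) ^ t * Qn)))) := by
    refine hcount'.trans ?_
    exact mul_le_mul_of_nonneg_left h2 (by positivity)
  have h10 : Qn * 2 ^ t ≤ Qn * (C.size * 2 ^ Fintype.card B * (m : ℝ) ^ l * (q : ℝ) ^ (2 * l)) := by
    have h11 := mul_le_mul_of_nonneg_right h9 (show (0:ℝ) ≤ 2 ^ t by positivity)
    refine h11.trans (le_of_eq ?_)
    have h12 : ((1:ℝ) / 2) ^ t * 2 ^ t = 1 := by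
      rw [← mul_pow]; norm_num
    calc (q : ℝ) ^ l * (C.size * (2 ^ Fintype.card B * (m : ℝ) ^ l *
          ((q : ℝ) ^ l * ((1 / 2) ^ t * Qn)))) * 2 ^ t
        = Qn * (C.size * 2 ^ Fintype.card B * (m : ℝ) ^ l * ((q : ℝ) ^ l * (q : ℝ) ^ l)) *
          ((1 / 2) ^ t * 2 ^ t) := by ring
      _ = _ := by
        rw [h12, mul_one, ← pow_add]
        congr 3
        ring
  exact le_of_mul_le_mul_left h10 hQ

end Pool.H90.RC
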