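import Mathlib

/-!
Choice of the parameters for monotone real circuits.
-/

namespace Pool.H90.RC

open Filter

lemma ev_rpow (r : ℝ) (hr : 0 < r) (A : ℝ) : ∀ᶠ N : ℕ in atTop, A ≤ (N : ℝ) ^ r :=
  ((tendsto_rpow_atTop hr).comp tendsto_natCast_atTop_atTop).eventually_ge_atTop A

lemma log2_le (N : ℕ) (hN : 0 < N) (r : ℝ) (hr : 0 < r) :
    ((Nat.log 2 N : ℕ) : ℝ) ≤ 2 / r * (N : ℝ) ^ r := by
  have h1 : ((2:ℕ) ^ Nat.log 2 N : ℕ) ≤ N := Nat.pow_log_le_self 2 hN.ne'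
  have h2 : ((2:ℝ)) ^ Nat.log 2 N ≤ N := by exact_mod_cast h1
  have hN0 : (0:ℝ) < N := by exact_mod_cast hN
  have h3 : (Nat.log 2 N : ℝ) * Real.log 2 ≤ Real.log N := by
    rw [← Real.log_pow]
    exact Real.log_le_log (by positivity) h2
  have h4 : Real.log N ≤ (N : ℝ) ^ r / r := Real.log_le_rpow_div hN0.le hr
  have h5 : (0.5:ℝ) ≤ Real.log 2 := by
    have := Real.log_two_gt_d9
    linarith
  have h6 : (Nat.log 2 N : ℝ) * 0.5 ≤ (Nat.log 2 N : ℝ) * Real.log 2 :=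
    mul_le_mul_of_nonneg_left h5 (Nat.cast_nonneg _)
  have h7 : 2 / r * (N : ℝ) ^ r = 2 * ((N : ℝ) ^ r / r) := by ring
  rw [h7]
  linarith

theorem rparameters (q : ℕ) (hq : 2 ≤ q) (γ : ℝ) (hγ : 0 < γ) (hγ1 : γ ≤ 1) (n₀ : ℕ) (δ : ℝ)
    (hδ : δ < 1 / 3) :
    ∃ N₀ : ℕ, ∀ N ≥ N₀, ∃ n m l t κ κ' : ℕ, n₀ ≤ n ∧ 0 < m ∧ 0 < t ∧ 2 ≤ l ∧
      3 * l ≤ ⌊γ * n⌋₊ ∧ 2 ≤ κ ∧ 0 < κ' ∧ κ * κ' ≤ m ∧ 4 * (2 * l) * q * t ≤ κ' ∧ n * m ≤ N ∧
      ∀ s : ℕ, (κ ^ l ≤ s * 2 ^ (n + n) ∨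
        (2 : ℝ) ^ t ≤ s * 2 ^ (n + n) * (m : ℝ) ^ l * (q : ℝ) ^ (2 * l)) →
        Real.exp ((N : ℝ) ^ δ) ≤ s := by
  set η : ℝ := (max δ 0 + 1 / 3) / 2 with hη
  have hη0 : 0 < η := by
    have := le_max_right δ 0
    rw [hη]; linarith
  have hηδ : δ < η := by
    have := le_max_left δ 0
    have h2 : max δ 0 < 1 / 3 := max_lt hδ (by norm_num)
    rw [hη]; linarith
  have hη3 : 3 * η < 1 := by
    have h2 : max δ 0 < 1 / 3 := max_lt hδ (by norm_num)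
    rw [hη]; linarith
  set r : ℝ := (1 - 3 * η) / 2 with hr
  have hr0 : 0 < r := by rw [hr]; linarith
  -- the constant `κ`
  set A : ℕ := ⌈(24 : ℝ) / γ⌉₊ with hA
  have hA1 : (24 : ℝ) / γ ≤ A := Nat.le_ceil _
  have hApos : 1 ≤ A := by
    have : (0:ℝ) < A := lt_of_lt_of_le (by positivity) hA1
    exact_mod_cast this
  set κ : ℕ := 2 ^ A with hκ
  have hκ2 : 2 ≤ κ := by
    calc 2 = 2 ^ 1 := by norm_num
      _ ≤ 2 ^ A := Nat.pow_le_pow_right (by norm_num) hApos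
  -- conditions on `N`
  set c : ℕ := 2 * q + 10 with hc
  set K₁ : ℝ := κ * (8 * q) * (2 / r) with hK₁
  set K₂ : ℝ := κ * (8 * q) * c with hK₂
  have hev := (((ev_rpow η hη0 (2 * (n₀ + 100 / γ + 100))).and
    (ev_rpow (η - δ) (by linarith) 4)).and (ev_rpow r hr0 (K₁ + K₂ + 1))).and
    (eventually_ge_atTop 1)
  obtain ⟨N₀, hN₀⟩ := eventually_atTop.1 hev
  refine ⟨N₀, fun N hN => ?_⟩
  obtain ⟨⟨⟨e1, e2⟩, e3⟩, e4⟩ := hN₀ N hN
  have hNpos : (0:ℝ) < N := by exact_mod_cast e4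
  have hN1 : (1:ℝ) ≤ N := by exact_mod_cast e4
  set x : ℝ := (N : ℝ) ^ η with hx
  set n : ℕ := ⌊x⌋₊ with hn
  have hx0 : 0 ≤ x := by positivity
  have hnx : (n : ℝ) ≤ x := Nat.floor_le hx0
  have hxn : x < n + 1 := Nat.lt_floor_add_one x
  have hγ' : (100:ℝ) ≤ 100 / γ := by
    rw [le_div_iff₀ hγ]; nlinarith
  have hn0r : (0:ℝ) ≤ n₀ := Nat.cast_nonneg _
  have hnbig : (n₀ : ℝ) + 100 / γ + 100 ≤ n := by linarith
  have hn100 : (100:ℝ) ≤ n := by linarith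
  have hnn₀ : n₀ ≤ n := by
    have : (n₀ : ℝ) ≤ n := by linarith
    exact_mod_cast this
  have hnγ : (100:ℝ) ≤ γ * n := by
    have h1 : 100 / γ ≤ n := by linarith
    rw [div_le_iff₀ hγ] at h1
    linarith
  set l : ℕ := ⌊γ * n⌋₊ / 3 with hl
  have hl3 : 3 * l ≤ ⌊γ * n⌋₊ := by omega
  have hfl : γ * n < ⌊γ * (n:ℝ)⌋₊ + 1 := Nat.lt_floor_add_one _
  have hfl2 : (⌊γ * (n:ℝ)⌋₊ : ℝ) ≤ γ * n := Nat.floor_le (by positivity)
  have hl1 : ((⌊γ * (n:ℝ)⌋₊ : ℕ) : ℝ) ≤ 3 * l + 2 := by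
    have : ⌊γ * (n:ℝ)⌋₊ ≤ 3 * l + 2 := by omega
    exact_mod_cast this
  have hl6 : γ * n ≤ 6 * l := by linarith
  have hl2 : 2 ≤ l := by
    have : (2:ℝ) ≤ l := by linarith
    exact_mod_cast this
  have hln : l ≤ n := by
    have h1 : (3:ℝ) * l ≤ γ * n := by
      have : ((3 * l : ℕ) : ℝ) ≤ ⌊γ * (n:ℝ)⌋₊ := by exact_mod_cast hl3
      push_cast at this
      linarith
    have h2 : γ * n ≤ n := by nlinarith
    have : (l:ℝ) ≤ n := by linarith [Nat.cast_nonneg (α := ℝ) l]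
    exact_mod_cast this
  set L : ℕ := Nat.log 2 N + 1 with hL
  have hNL : N < 2 ^ L := Nat.lt_pow_succ_log_self (by norm_num) N
  set t : ℕ := n * (L + c - 1) with ht
  have hnpos : 0 < n := by
    have : (0:ℝ) < n := by linarith
    exact_mod_cast this
  have htpos : 0 < t := by
    rw [ht]
    apply Nat.mul_pos hnpos
    omega
  set κ' : ℕ := 8 * l * q * t with hκ'
  have hκ'pos : 0 < κ' := by
    rw [hκ']
    have : 0 < q := by omega
    positivity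
  set m : ℕ := κ * κ' with hm
  have hmpos : 0 < m := Nat.mul_pos (by omega) hκ'pos
  have hnm : n * m ≤ N := by
    have h1 : ((n * m : ℕ) : ℝ) ≤ N := by
      have h2 : ((n * m : ℕ) : ℝ) ≤ κ * (8 * q) * (n : ℝ) ^ 3 * (L + c - 1 : ℕ) := by
        have h3 : n * m ≤ κ * (8 * q) * n ^ 3 * (L + c - 1) := by
          calc n * m = κ * (8 * q) * (n * l * n) * (L + c - 1) := by
                rw [hm, hκ', ht]; ring
            _ ≤ κ * (8 * q) * (n * n * n) * (L + c - 1) := by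
                gcongr
            _ = κ * (8 * q) * n ^ 3 * (L + c - 1) := by ring
        exact_mod_cast h3
      have h4 : ((L + c - 1 : ℕ) : ℝ) ≤ 2 / r * (N : ℝ) ^ r + c := by
        have h5 : L + c - 1 = Nat.log 2 N + c := by omega
        rw [h5]
        push_cast
        have := log2_le N (by omega) r hr0
        linarith
      have h6 : (n : ℝ) ^ 3 ≤ (N : ℝ) ^ (3 * η) := by
        calc (n : ℝ) ^ 3 ≤ x ^ 3 := pow_le_pow_left₀ (Nat.cast_nonneg _) hnx 3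
          _ = (N : ℝ) ^ (3 * η) := by
              rw [hx, ← Real.rpow_natCast, ← Real.rpow_mul hNpos.le]
              congr 1
              push_cast
              ring
      have h7 : κ * (8 * q) * (2 / r * (N : ℝ) ^ r + c) ≤ (N : ℝ) ^ r * (N : ℝ) ^ r := by
        have h8 : (1:ℝ) ≤ (N : ℝ) ^ r := Real.one_le_rpow hN1 hr0.le
        have h9 : κ * (8 * q) * (2 / r * (N : ℝ) ^ r + c) = K₁ * (N : ℝ) ^ r + K₂ := by
          rw [hK₁, hK₂]; ring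
        have hK1 : 0 ≤ K₁ := by positivity
        have hK2 : 0 ≤ K₂ := by positivity
        rw [h9]
        calc K₁ * (N : ℝ) ^ r + K₂ ≤ K₁ * (N : ℝ) ^ r + K₂ * (N : ℝ) ^ r := by nlinarith
          _ = (K₁ + K₂) * (N : ℝ) ^ r := by ring
          _ ≤ (N : ℝ) ^ r * (N : ℝ) ^ r := by
              apply mul_le_mul_of_nonneg_right _ (by positivity)
              linarith
      calc ((n * m : ℕ) : ℝ) ≤ κ * (8 * q) * (n : ℝ) ^ 3 * (L + c - 1 : ℕ) := h2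
        _ ≤ κ * (8 * q) * (N : ℝ) ^ (3 * η) * (2 / r * (N : ℝ) ^ r + c) := by
            gcongr
        _ = (N : ℝ) ^ (3 * η) * (κ * (8 * q) * (2 / r * (N : ℝ) ^ r + c)) := by ring
        _ ≤ (N : ℝ) ^ (3 * η) * ((N : ℝ) ^ r * (N : ℝ) ^ r) :=
            mul_le_mul_of_nonneg_left h7 (by positivity)
        _ = N := by
            rw [← Real.rpow_add hNpos, ← Real.rpow_add hNpos]
            have : 3 * η + (r + r) = 1 := by rw [hr]; ring
            rw [this, Real.rpow_one]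
    exact_mod_cast h1
  have hmN : m ≤ N := le_trans (Nat.le_mul_of_pos_left m hnpos) hnm
  -- `exp (N^δ) ≤ 2^n`
  have hexp : Real.exp ((N : ℝ) ^ δ) ≤ 2 ^ n := by
    have h1 : (N : ℝ) ^ η = (N : ℝ) ^ (η - δ) * (N : ℝ) ^ δ := by
      rw [← Real.rpow_add hNpos]
      congr 1
      ring
    have h2 : 4 * (N : ℝ) ^ δ ≤ x := by
      rw [hx, h1]
      exact mul_le_mul_of_nonneg_right e2 (by positivity)
    have h3 : (N : ℝ) ^ δ ≤ n * Real.log 2 := by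
      have h4 := Real.log_two_gt_d9
      have h5 : (n:ℝ) * 0.6931471803 ≤ n * Real.log 2 :=
        mul_le_mul_of_nonneg_left h4.le (Nat.cast_nonneg _)
      linarith
    calc Real.exp ((N : ℝ) ^ δ) ≤ Real.exp (n * Real.log 2) := Real.exp_le_exp.2 h3
      _ = 2 ^ n := by
          rw [Real.exp_nat_mul, Real.exp_log (by norm_num)]
  refine ⟨n, m, l, t, κ, κ', hnn₀, hmpos, htpos, hl2, hl3, hκ2, hκ'pos, le_refl _, ?_, hnm, ?_⟩
  · rw [hκ']
    apply le_of_eq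
    ring
  intro s hs
  by_contra hcon
  push Not at hcon
  have hs2 : (s:ℝ) < 2 ^ n := lt_of_lt_of_le hcon hexp
  have hs2' : s < 2 ^ n := by exact_mod_cast hs2
  rcases hs with hs | hs
  · -- first alternative
    have h1 : s * 2 ^ (n + n) < 2 ^ (3 * n) := by
      calc s * 2 ^ (n + n) < 2 ^ n * 2 ^ (n + n) :=
            Nat.mul_lt_mul_of_pos_right hs2' (by positivity)
        _ = 2 ^ (3 * n) := by rw [← pow_add]; congr 1; ring
    have h2 : 2 ^ (3 * n) ≤ κ ^ l := by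
      rw [hκ, ← pow_mul]
      apply Nat.pow_le_pow_right (by norm_num)
      have h3 : (3:ℝ) * n ≤ A * l := by
        have h4 : 24 / γ * l ≤ A * l := mul_le_mul_of_nonneg_right hA1 (Nat.cast_nonneg _)
        have h5 : (4:ℝ) * n ≤ 24 / γ * l := by
          rw [div_mul_eq_mul_div, le_div_iff₀ hγ]
          linarith
        linarith [Nat.cast_nonneg (α := ℝ) n]
      exact_mod_cast h3
    omega
  · -- second alternative
    have hm2 : (m:ℝ) ≤ 2 ^ L := by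
      have : m ≤ 2 ^ L := hmN.trans hNL.le
      exact_mod_cast this
    have hq2 : (q:ℝ) ≤ 2 ^ q := by
      have : q < 2 ^ q := Nat.lt_two_pow_self
      exact_mod_cast this.le
    have h1 : (m:ℝ) ^ l ≤ 2 ^ (L * n) := by
      calc (m:ℝ) ^ l ≤ ((2:ℝ) ^ L) ^ l := pow_le_pow_left₀ (Nat.cast_nonneg _) hm2 l
        _ = 2 ^ (L * l) := by rw [← pow_mul]
        _ ≤ 2 ^ (L * n) := pow_le_pow_right₀ (by norm_num) (Nat.mul_le_mul_left _ hln)
    have h2 : (q:ℝ) ^ (2 * l) ≤ 2 ^ (q * (2 * n)) := by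
      calc (q:ℝ) ^ (2 * l) ≤ ((2:ℝ) ^ q) ^ (2 * l) :=
            pow_le_pow_left₀ (Nat.cast_nonneg _) hq2 _
        _ = 2 ^ (q * (2 * l)) := by rw [← pow_mul]
        _ ≤ 2 ^ (q * (2 * n)) :=
            pow_le_pow_right₀ (by norm_num) (Nat.mul_le_mul_left _ (Nat.mul_le_mul_left _ hln))
    have h3 : (s:ℝ) * 2 ^ (n + n) * (m : ℝ) ^ l * (q : ℝ) ^ (2 * l) <
        2 ^ n * 2 ^ (n + n) * 2 ^ (L * n) * 2 ^ (q * (2 * n)) := by
      have hpos : (0:ℝ) < 2 ^ (n + n) := by positivity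
      have h4 : (s:ℝ) * 2 ^ (n + n) < 2 ^ n * 2 ^ (n + n) :=
        mul_lt_mul_of_pos_right hs2 hpos
      have h5 : (s:ℝ) * 2 ^ (n + n) * (m : ℝ) ^ l * (q : ℝ) ^ (2 * l) ≤
          (s:ℝ) * 2 ^ (n + n) * 2 ^ (L * n) * 2 ^ (q * (2 * n)) := by
        have h6 : (s:ℝ) * 2 ^ (n + n) * (m : ℝ) ^ l ≤ (s:ℝ) * 2 ^ (n + n) * 2 ^ (L * n) :=
          mul_le_mul_of_nonneg_left h1 (by positivity)
        exact mul_le_mul h6 h2 (by positivity) (by positivity)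
      refine lt_of_le_of_lt h5 ?_
      have h7 : (0:ℝ) < 2 ^ (L * n) * 2 ^ (q * (2 * n)) := by positivity
      calc (s:ℝ) * 2 ^ (n + n) * 2 ^ (L * n) * 2 ^ (q * (2 * n))
          = (s:ℝ) * 2 ^ (n + n) * (2 ^ (L * n) * 2 ^ (q * (2 * n))) := by ring
        _ < 2 ^ n * 2 ^ (n + n) * (2 ^ (L * n) * 2 ^ (q * (2 * n))) :=
            mul_lt_mul_of_pos_right h4 h7
        _ = _ := by ring
    have h8 : (2:ℝ) ^ n * 2 ^ (n + n) * 2 ^ (L * n) * 2 ^ (q * (2 * n)) ≤ 2 ^ t := by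
      rw [← pow_add, ← pow_add, ← pow_add]
      apply pow_le_pow_right₀ (by norm_num)
      have h9 : L + c - 1 = L + (2 * q + 9) := by omega
      rw [ht, h9]
      nlinarith [Nat.zero_le n]
    linarith

end Pool.H90.RC
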