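import Pool.Agent.H66.RZ.Plant
import Pool.Agent.H66.RZ.WidthB
import Pool.Agent.H90.RC.Low
import Pool.Agent.H90.RC.Par

/-!
Exponential lower bound for monotone real circuits which separate satisfiable d-to-1 games from
games of value `O(log (d R) / R)`.
-/

namespace Pool.H90.RC

open Finset
open Pool.H66.RZ
open scoped Classical

/-- Monotone real circuits are monotone. -/
theorem reval_mono {ι : Type} (C : RCircuit ι) (x x' : ι → Bool)
    (h : ∀ i, x i = true → x' i = true) : C.eval x ≤ C.eval x' := by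
  have hw : ∀ (W : RWire ι) (vals vals' : List ℝ), vals.length = vals'.length →
      (∀ j, vals.getD j 0 ≤ vals'.getD j 0) → W.val x vals ≤ W.val x' vals' := by
    intro W vals vals' _ hv
    rcases W with c | i | j
    · exact le_refl _
    · show (if x i = true then (1:ℝ) else 0) ≤ if x' i = true then 1 else 0
      by_cases hx : x i = true
      · rw [if_pos hx, if_pos (h i hx)]
      · rw [if_neg hx]
        split_ifs <;> norm_num
    · exact hv j
  have hrun : ∀ (gs : List (RGate ι)) (vals vals' : List ℝ), vals.length = vals'.length →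
      (∀ j, vals.getD j 0 ≤ vals'.getD j 0) →
      (rrun x gs vals).length = (rrun x' gs vals').length ∧
      ∀ j, (rrun x gs vals).getD j 0 ≤ (rrun x' gs vals').getD j 0 := by
    intro gs
    induction gs with
    | nil => intro vals vals' h1 h2; exact ⟨h1, h2⟩
    | cons g gs ih =>
      intro vals vals' h1 h2
      apply ih
      · simp [h1]
      · intro j
        have hg : g.val x vals ≤ g.val x' vals' :=
          g.mono _ _ _ _ (hw _ _ _ h1 h2) (hw _ _ _ h1 h2)
        rcases lt_trichotomy j vals.length with hj | hj | hj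
        · rw [List.getD_append _ _ _ _ hj, List.getD_append _ _ _ _ (by omega)]
          exact h2 j
        · rw [List.getD_append_right _ _ _ _ (by omega), List.getD_append_right _ _ _ _ (by omega),
            ← h1, hj]
          simpa using hg
        · rw [List.getD_append_right _ _ _ _ (by omega), List.getD_append_right _ _ _ _ (by omega),
            ← h1]
          have h3 : 1 ≤ j - vals.length := by omega
          rw [List.getD_eq_default _ _ (by simpa using h3),
            List.getD_eq_default _ _ (by simpa using h3)]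
  obtain ⟨h1, h2⟩ := hrun C.gates [] [] rfl (fun j => le_refl _)
  exact hw C.out _ _ h1 h2

theorem rmain : ∃ C : ℝ, 0 < C ∧ ∀ d R : ℕ, 2 ≤ d → 2 ≤ R → ∀ ε : ℝ,
    C * Real.log (d * R) / R ≤ ε → ε ≤ 1 → ∀ δ : ℝ, δ < 1 / 3 → ∃ N₀ : ℕ, ∀ N ≥ N₀,
      ∀ K : RCircuit (Var N d R), RSeparates K ε → Real.exp ((N : ℝ) ^ δ) ≤ K.size := by
  obtain ⟨C, hC, h⟩ := linear_width
  refine ⟨C, hC, fun d R hd hR ε hε hε1 δ hδ => ?_⟩
  obtain ⟨γ, hγ, hγ1, n₀, hn⟩ := h d R hd hR ε hε hε1
  have hq : 2 ≤ d * R := by nlinarith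
  obtain ⟨N₀, hN⟩ := rparameters (d * R) hq γ hγ hγ1 n₀ δ hδ
  refine ⟨N₀, fun N hNN K hK => ?_⟩
  obtain ⟨n, m, l, t, κ, κ', h1, hm, ht, hl, hlk, hκ, hκ'0, hκm, hκ', hnm, hfin⟩ := hN N hNN
  obtain ⟨Φ, hE, hval, hcons⟩ := hn n h1
  obtain ⟨H, live, ρ, px, ny, p1, p2, p3, -, p5, p6⟩ :=
    planted (by omega) (by omega) hm Φ hE ε hval (by omega) hcons hnm
  have hlow := real_low (by omega) hm ht hl hlk hκ hκ'0 hκm hκ' H live ρ px ny p1 p2 p3 K (by
    intro x y
    obtain ⟨Ψ, e1, e2, e3⟩ := p5 x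
    obtain ⟨Ψ', f1, f2, f3⟩ := p6 y
    rw [e3]
    exact lt_of_le_of_lt (reval_mono K _ _ f3) (hK Ψ' Ψ f1 f2 e1 e2))
  rw [Fintype.card_sum, Fintype.card_fin] at hlow
  exact hfin K.size hlow

end Pool.H90.RC
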